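import Pool.Agent.LibPF5.L6

/-! A Krull type intersection lemma for commutators of terms of the lower central series. -/

set_option autoImplicit false

namespace Pool.Agent.LibPC42

open Pool.Agent.LibPF5
open scoped commutatorElement

theorem anti {G : Type} [Group G] {a b : ℕ} (h : a ≤ b) : lcs G b ≤ lcs G a :=
  Subgroup.lowerCentralSeries_antitone ⊤ h

private theorem three_aux {G H : Type} [Group G] [Group H] (A B C : Subgroup G) [A.Normal] [B.Normal] [C.Normal]
    (π : G →* H) (h1 : ⁅⁅A, C⁆, B⁆ ≤ π.ker) (h2 : ⁅A, ⁅B, C⁆⁆ ≤ π.ker) : (⁅⁅A, B⁆, C⁆).map π = ⊥ := by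
  rw [Subgroup.map_commutator, Subgroup.map_commutator]
  apply Subgroup.commutator_commutator_eq_bot_of_rotate
  · rw [Subgroup.commutator_comm, ← Subgroup.map_commutator, ← Subgroup.map_commutator,
      Subgroup.map_eq_bot_iff]
    exact h2
  · rw [Subgroup.commutator_comm (C.map π), ← Subgroup.map_commutator, ← Subgroup.map_commutator,
      Subgroup.map_eq_bot_iff]
    exact h1

theorem three_sub {G : Type} [Group G] (A B C : Subgroup G) [A.Normal] [B.Normal] [C.Normal] :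
    ⁅⁅A, B⁆, C⁆ ≤ ⁅⁅A, C⁆, B⁆ ⊔ ⁅A, ⁅B, C⁆⁆ := by
  have h := three_aux A B C (QuotientGroup.mk' (⁅⁅A, C⁆, B⁆ ⊔ ⁅A, ⁅B, C⁆⁆))
    (by rw [QuotientGroup.ker_mk']; exact le_sup_left) (by rw [QuotientGroup.ker_mk']; exact le_sup_right)
  rwa [Subgroup.map_eq_bot_iff, QuotientGroup.ker_mk'] at h

theorem ucs_trivial {G : Type} [Group G]
    (h : ∀ z ∈ Subgroup.center G, (∀ j, z ∈ lcs G j) → z = 1) (s : ℕ) :
    ∀ x ∈ Subgroup.upperCentralSeries G s, (∀ j, x ∈ lcs G j) → x = 1 := by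
  induction s with
  | zero =>
    intro x hx _
    exact hx
  | succ s ih =>
    intro x hx hj
    rw [Subgroup.mem_upperCentralSeries_succ_iff] at hx
    apply h x _ hj
    rw [Subgroup.mem_center_iff]
    intro g
    have h1 : ⁅x, g⁆ = 1 := by
      apply ih _ (hx g)
      intro j
      have h2 : ⁅x, g⁆ ∈ lcs G (j + 1) := Subgroup.commutator_mem_commutator (hj j) (Subgroup.mem_top g)
      exact anti (Nat.le_succ j) h2
    rw [commutatorElement_eq_one_iff_mul_comm] at h1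
    exact h1.symm

theorem ucs_comm {G : Type} [Group G] (n k : ℕ) (s : ℕ) :
    ∀ a b : ℕ, n ≤ a → n ≤ b → 2 * k ≤ a + b + s → ∀ x ∈ ⁅lcs G a, lcs G b⁆,
      (QuotientGroup.mk' ⁅lcs G n, lcs G k⁆ x) ∈ Subgroup.upperCentralSeries (G ⧸ ⁅lcs G n, lcs G k⁆) s := by
  induction s with
  | zero =>
    intro a b ha hb hab x hx
    have h1 : x ∈ ⁅lcs G n, lcs G k⁆ := by
      rcases le_or_gt k b with h | h
      · exact Subgroup.commutator_mono (anti ha)
          (anti h) hx
      · have h2 : k ≤ a := by omega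
        rw [Subgroup.commutator_comm]
        exact Subgroup.commutator_mono (anti h2)
          (anti hb) hx
    rw [Subgroup.upperCentralSeries_zero, Subgroup.mem_bot]
    exact (QuotientGroup.eq_one_iff x).mpr h1
  | succ s ih =>
    intro a b ha hb hab x hx
    rw [Subgroup.mem_upperCentralSeries_succ_iff]
    intro y
    obtain ⟨y, rfl⟩ := QuotientGroup.mk'_surjective _ y
    rw [← map_commutatorElement]
    have h1 : ⁅x, y⁆ ∈ ⁅⁅lcs G a, lcs G b⁆, (⊤ : Subgroup G)⁆ :=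
      Subgroup.commutator_mem_commutator hx (Subgroup.mem_top y)
    have h2 := three_sub (lcs G a) (lcs G b) (⊤ : Subgroup G) h1
    have h3 : (⁅⁅lcs G a, (⊤ : Subgroup G)⁆, lcs G b⁆ ⊔ ⁅lcs G a, ⁅lcs G b, (⊤ : Subgroup G)⁆⁆ : Subgroup G) ≤
        (Subgroup.upperCentralSeries (G ⧸ ⁅lcs G n, lcs G k⁆) s).comap (QuotientGroup.mk' _) := by
      refine sup_le ?_ ?_
      · intro z hz
        exact ih (a + 1) b (by omega) hb (by omega) z hz
      · intro z hz
        exact ih a (b + 1) ha (by omega) (by omega) z hz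
    exact h3 h2

/-- Lemma W. -/
theorem lemW {G : Type} [Group G] (hfg : Group.FG G) (n k : ℕ) (hnk : n ≤ k) (w : G)
    (hw : w ∈ ⁅lcs G n, lcs G n⁆)
    (hj : ∀ j, ∃ d ∈ ⁅lcs G n, lcs G k⁆, w * d ∈ lcs G j) : w ∈ ⁅lcs G n, lcs G k⁆ := by
  set D := ⁅lcs G n, lcs G k⁆ with hD
  have hfg' : Group.FG (G ⧸ D) := Group.fg_of_surjective (QuotientGroup.mk'_surjective D)
  have hmap : ∀ j, (lcs G j).map (QuotientGroup.mk' D) = lcs (G ⧸ D) j := by
    intro j
    rw [Subgroup.map_lowerCentralSeries, ← MonoidHom.range_eq_map,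
      MonoidHom.range_eq_top.mpr (QuotientGroup.mk'_surjective D)]
  have hcen : ∀ z ∈ Subgroup.center (G ⧸ D), (∀ j, z ∈ lcs (G ⧸ D) j) → z = 1 := by
    intro z hz hzj
    have h1 := L6 hfg' k z hz hzj
    rw [← hmap k, ← Subgroup.map_commutator] at h1
    obtain ⟨y, hy, rfl⟩ := h1
    have h2 : y ∈ D := Subgroup.commutator_mono (anti hnk) le_rfl hy
    exact (QuotientGroup.eq_one_iff y).mpr h2
  have h1 := ucs_comm n k (2 * k) n n le_rfl le_rfl (by omega) w hw
  have h2 : QuotientGroup.mk' D w = 1 := by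
    refine ucs_trivial hcen (2 * k) _ h1 (fun j => ?_)
    obtain ⟨d, hd, hwd⟩ := hj j
    rw [← hmap j]
    refine ⟨w * d, hwd, ?_⟩
    rw [map_mul]
    have h3 : QuotientGroup.mk' D d = 1 := (QuotientGroup.eq_one_iff d).mpr hd
    rw [h3, mul_one]
  exact (QuotientGroup.eq_one_iff w).mp h2

end Pool.Agent.LibPC42
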