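import Pool.Agent.LibPF5.Defs

/-! Extension of alternating forms from finitely generated subgroups. -/

set_option autoImplicit false

namespace Pool.Agent.LibPC42

open Pool.Agent.LibPF5

/-- a homomorphism to `ℚ` which kills `H` and not `x`, if no positive multiple of `x` is in `H` -/
theorem exists_hom {A : Type} [AddCommGroup A] (H : AddSubgroup A) (x : A)
    (hx : ∀ m : ℕ, 0 < m → m • x ∉ H) : ∃ a : A →+ ℚ, (∀ y ∈ H, a y = 0) ∧ a x ≠ 0 := by
  have hinj : Function.Injective (zmultiplesHom (A ⧸ H) (QuotientAddGroup.mk x)) := by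
    rw [injective_iff_map_eq_zero]
    intro n hn
    rw [zmultiplesHom_apply, ← QuotientAddGroup.mk_zsmul, QuotientAddGroup.eq_zero_iff] at hn
    by_contra h0
    rcases Int.natAbs_eq n with h | h
    · refine hx n.natAbs (Int.natAbs_pos.2 h0) ?_
      rw [h, natCast_zsmul] at hn
      exact hn
    · refine hx n.natAbs (Int.natAbs_pos.2 h0) ?_
      rw [h, neg_zsmul, natCast_zsmul, H.neg_mem_iff] at hn
      exact hn
  have hbaer : Module.Baer ℤ ℚ := Module.Baer.of_divisible ℚ
  obtain ⟨g, hg⟩ := hbaer.extension_property_addMonoidHom _ hinj (Int.castAddHom ℚ)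
  refine ⟨g.comp (QuotientAddGroup.mk' H), fun y hy => ?_, ?_⟩
  · have : QuotientAddGroup.mk' H y = 0 := (QuotientAddGroup.eq_zero_iff y).2 hy
    rw [AddMonoidHom.comp_apply, this, map_zero]
  · have h1 := DFunLike.congr_fun hg 1
    rw [AddMonoidHom.comp_apply, zmultiplesHom_apply, one_zsmul] at h1
    rw [AddMonoidHom.comp_apply]
    change g (QuotientAddGroup.mk x) ≠ 0
    rw [h1]
    simp

private theorem common_den {r : ℕ} (c : Fin r → ℚ) :
    ∃ (N : ℕ) (n : Fin r → ℤ), 0 < N ∧ ∀ p, (n p : ℚ) = N * c p := by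
  refine ⟨∏ p, (c p).den, fun p => (c p).num * ∏ q ∈ Finset.univ.erase p, ((c q).den : ℤ),
    Finset.prod_pos (fun p _ => (c p).den_pos), fun p => ?_⟩
  rw [← Finset.mul_prod_erase Finset.univ (fun p => (c p).den) (Finset.mem_univ p)]
  have h : (c p).num = (c p) * (c p).den := (Rat.mul_den_eq_num (c p)).symm
  push_cast
  rw [h]
  ring

/-- dual functionals for a finitely generated subgroup -/
theorem dual_basis {A : Type} [AddCommGroup A] (F : ℕ → AddSubgroup A) (hanti : ∀ i j, i ≤ j → F j ≤ F i)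
    (hF : ∀ x : A, (∀ j, ∃ m : ℕ, 0 < m ∧ m • x ∈ F j) → x = 0) (S : Finset A) :
    ∃ (r k : ℕ) (e : Fin r → A) (a : Fin r → A →+ ℚ),
      (∀ x ∈ AddSubgroup.closure (S : Set A), ∃ n : Fin r → ℤ, x = ∑ p, n p • e p) ∧
      (∀ p q, a p (e q) = if q = p then 1 else 0) ∧ ∀ p, ∀ x ∈ F k, a p x = 0 := by
  classical
  have hA : IsAddTorsionFree A := by
    refine ⟨fun n hn x y hxy => ?_⟩
    have h1 : n • (x - y) = 0 := by
      rw [nsmul_sub]
      exact sub_eq_zero.2 hxy
    refine sub_eq_zero.1 (hF (x - y) (fun j => ⟨n, Nat.pos_of_ne_zero hn, ?_⟩))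
    rw [h1]
    exact (F j).zero_mem
  let M : Submodule ℤ A := Submodule.span ℤ (S : Set A)
  have hMfin : Module.Finite ℤ M := Module.Finite.span_of_finite ℤ S.finite_toSet
  have hMfree : Module.Free ℤ M := Module.free_of_finite_type_torsion_free'
  let b := Module.finBasis ℤ M
  let e : Fin (Module.finrank ℤ M) → A := fun p => (b p : A)
  let V : ℕ → Submodule ℚ (Fin (Module.finrank ℤ M) → ℚ) := fun j =>
    { carrier := {v | ∃ a : A →+ ℚ, (∀ x ∈ F j, a x = 0) ∧ ∀ p, v p = a (e p)}
      add_mem' := by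
        rintro v w ⟨a, ha, hv⟩ ⟨a', ha', hw⟩
        refine ⟨a + a', fun x hx => ?_, fun p => ?_⟩
        · rw [AddMonoidHom.add_apply, ha x hx, ha' x hx, add_zero]
        · rw [Pi.add_apply, AddMonoidHom.add_apply, hv, hw]
      zero_mem' := ⟨0, fun x _ => rfl, fun p => rfl⟩
      smul_mem' := by
        rintro c v ⟨a, ha, hv⟩
        refine ⟨(AddMonoidHom.mulLeft c).comp a, fun x hx => ?_, fun p => ?_⟩
        · rw [AddMonoidHom.comp_apply, ha x hx, map_zero]
        · rw [Pi.smul_apply, hv]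
          rfl }
  have hVmono : Monotone V := by
    intro i j hij
    rintro v ⟨a, ha, hv⟩
    exact ⟨a, fun x hx => ha x (hanti i j hij hx), hv⟩
  obtain ⟨k, hk⟩ := monotone_stabilizes_iff_noetherian.2
    (inferInstance : IsNoetherian ℚ (Fin (Module.finrank ℤ M) → ℚ)) ⟨V, hVmono⟩
  have hVk : ∀ j, V j ≤ V k := by
    intro j
    rcases le_total j k with h | h
    · exact hVmono h
    · exact (hk j h).ge
  have htop : V k = ⊤ := by
    by_contra hne
    obtain ⟨ℓ, hℓ0, hℓ⟩ := Submodule.exists_le_ker_of_lt_top (V k) (lt_top_iff_ne_top.2 hne)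
    obtain ⟨N, n, hN, hn⟩ := common_den (fun p => ℓ (Pi.single p 1))
    have hℓv : ∀ v : Fin (Module.finrank ℤ M) → ℚ, ℓ v = ∑ p, v p * ℓ (Pi.single p 1) := by
      intro v
      conv_lhs => rw [pi_eq_sum_univ' v]
      rw [map_sum]
      refine Finset.sum_congr rfl fun p _ => ?_
      rw [map_smul, smul_eq_mul]
    have hx : ∑ p, n p • e p = 0 := by
      apply hF
      intro j
      by_contra hcon
      push Not at hcon
      obtain ⟨a, ha, hax⟩ := exists_hom (F j) (∑ p, n p • e p) (fun m hm => hcon m hm)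
      apply hax
      have h1 : (fun p => a (e p)) ∈ V k := hVk j ⟨a, ha, fun p => rfl⟩
      have h2 : ℓ (fun p => a (e p)) = 0 := hℓ h1
      rw [hℓv] at h2
      rw [map_sum]
      have h3 : ∑ p, a (n p • e p) = N * ∑ p, a (e p) * ℓ (Pi.single p 1) := by
        rw [Finset.mul_sum]
        refine Finset.sum_congr rfl fun p _ => ?_
        rw [map_zsmul, zsmul_eq_mul, hn p]
        ring
      rw [h3, h2, mul_zero]
    have hx' : ∑ p, n p • b p = 0 := by
      apply Subtype.ext
      rw [Submodule.coe_sum]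
      exact hx
    have hn0 := Fintype.linearIndependent_iff.1 b.linearIndependent n hx'
    apply hℓ0
    refine LinearMap.ext fun v => ?_
    rw [hℓv]
    refine Finset.sum_eq_zero fun p _ => ?_
    have h4 : (N : ℚ) * ℓ (Pi.single p 1) = 0 := by
      rw [← hn p, hn0 p, Int.cast_zero]
    have h5 : ℓ (Pi.single p 1) = 0 := by
      rcases mul_eq_zero.1 h4 with h6 | h6
      · exact absurd h6 (by exact_mod_cast hN.ne')
      · exact h6
    rw [h5, mul_zero]
  have hex : ∀ p : Fin (Module.finrank ℤ M), ∃ a : A →+ ℚ, (∀ x ∈ F k, a x = 0) ∧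
      ∀ q, (Pi.single p 1 : Fin (Module.finrank ℤ M) → ℚ) q = a (e q) := by
    intro p
    have : (Pi.single p 1 : Fin (Module.finrank ℤ M) → ℚ) ∈ V k := by rw [htop]; trivial
    exact this
  choose a ha hae using hex
  refine ⟨Module.finrank ℤ M, k, e, a, ?_, ?_, fun p x hx => ha p x hx⟩
  · intro x hx
    have hxM : x ∈ M := by
      have h1 : AddSubgroup.closure (S : Set A) ≤ M.toAddSubgroup := by
        rw [AddSubgroup.closure_le]
        exact Submodule.subset_span
      exact h1 hx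
    refine ⟨fun p => b.repr ⟨x, hxM⟩ p, ?_⟩
    have h2 := congrArg (Subtype.val) (b.sum_repr ⟨x, hxM⟩)
    rw [Submodule.coe_sum] at h2
    exact h2.symm
  · intro p q
    rw [← hae p q, Pi.single_apply]

end Pool.Agent.LibPC42
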