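import Pool.Agent.LibPC42.W2

/-! An alternating form with values in `ℚ/ℤ` agrees on a finitely generated subgroup with the antisymmetrization of a
form which factors through finitely many homomorphisms to `ℚ`. -/

set_option autoImplicit false

namespace Pool.Agent.LibPC42

open Pool.Agent.LibPF5

private theorem alt_sum {r : ℕ} {B : Type} [AddCommGroup B] (W : Fin r → Fin r → B) (h0 : ∀ p, W p p = 0)
    (h1 : ∀ p q, W q p = - W p q) (n m : Fin r → ℤ) :
    (∑ p, ∑ q, if p < q then (n p * m q) • W p q else 0) -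
      (∑ p, ∑ q, if p < q then (m p * n q) • W p q else 0) = ∑ p, ∑ q, (n p * m q) • W p q := by
  have e1 : (∑ p, ∑ q, if p < q then (m p * n q) • W p q else 0) =
      ∑ p, ∑ q, if q < p then -((n p * m q) • W p q) else 0 := by
    rw [Finset.sum_comm]
    refine Finset.sum_congr rfl fun p _ => Finset.sum_congr rfl fun q _ => ?_
    split_ifs
    · rw [h1 p q, smul_neg, mul_comm (m q)]
    · rfl
  rw [e1, ← Finset.sum_sub_distrib]
  refine Finset.sum_congr rfl fun p _ => ?_
  rw [← Finset.sum_sub_distrib]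
  refine Finset.sum_congr rfl fun q _ => ?_
  rcases lt_trichotomy p q with h | h | h
  · rw [if_pos h, if_neg h.not_gt, sub_zero]
  · rw [if_neg (by rw [h]; exact lt_irrefl _), if_neg (by rw [h]; exact lt_irrefl _), h, h0, smul_zero,
      sub_zero]
  · rw [if_neg h.not_gt, if_pos h, sub_neg_eq_add, zero_add]

theorem ext_form {A : Type} [AddCommGroup A] (F : ℕ → AddSubgroup A) (hanti : ∀ i j, i ≤ j → F j ≤ F i)
    (hF : ∀ x : A, (∀ j, ∃ m : ℕ, 0 < m ∧ m • x ∈ F j) → x = 0) (S : Finset A)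
    (ω : A → A → QZ) (hl : ∀ x x' y, ω (x + x') y = ω x y + ω x' y)
    (hr : ∀ x y y', ω x (y + y') = ω x y + ω x y') (h0 : ∀ x, ω x x = 0) :
    ∃ (r k : ℕ) (a : A →+ (Fin r → ℚ)) (β : (Fin r → ℚ) → (Fin r → ℚ) → QZ),
      (∀ X X' Y, β (X + X') Y = β X Y + β X' Y) ∧ (∀ X Y Y', β X (Y + Y') = β X Y + β X Y') ∧
      (∀ x ∈ F k, a x = 0) ∧
      ∀ x ∈ AddSubgroup.closure (S : Set A), ∀ y ∈ AddSubgroup.closure (S : Set A),
        β (a x) (a y) - β (a y) (a x) = ω x y := by
  obtain ⟨r, k, e, a, hx, hd, hk⟩ := dual_basis F hanti hF S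
  let κ : ℚ →+ QZ := QuotientAddGroup.mk' (AddSubgroup.zmultiples (1 : ℚ))
  have hκ : Function.Surjective κ := QuotientAddGroup.mk'_surjective _
  choose w hw using fun p q => hκ (ω (e p) (e q))
  let Ω : A →+ A →+ QZ := AddMonoidHom.mk' (fun x => AddMonoidHom.mk' (ω x) (hr x))
    (fun x x' => AddMonoidHom.ext fun y => hl x x' y)
  have hW0 : ∀ p, ω (e p) (e p) = 0 := fun p => h0 _
  have hW1 : ∀ p q, ω (e q) (e p) = - ω (e p) (e q) := by
    intro p q
    have h := h0 (e p + e q)
    rw [hl, hr, hr, h0, h0, zero_add, add_zero] at h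
    exact eq_neg_of_add_eq_zero_right h
  have hax : ∀ (n : Fin r → ℤ) (p : Fin r), a p (∑ q, n q • e q) = n p := by
    intro n p
    rw [map_sum]
    simp only [map_zsmul, hd]
    simp
  have hΩ : ∀ n m : Fin r → ℤ, ω (∑ p, n p • e p) (∑ q, m q • e q) =
      ∑ p, ∑ q, (n p * m q) • ω (e p) (e q) := by
    intro n m
    have h1 : Ω (∑ p, n p • e p) (∑ q, m q • e q) =
        ∑ p, ∑ q, (n p * m q) • Ω (e p) (e q) := by
      have h2 : Ω (∑ p, n p • e p) = ∑ p, n p • Ω (e p) := by
        rw [map_sum]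
        simp only [map_zsmul]
      rw [h2, AddMonoidHom.finsetSum_apply]
      refine Finset.sum_congr rfl fun p _ => ?_
      rw [map_sum]
      refine Finset.sum_congr rfl fun q _ => ?_
      rw [map_zsmul, AddMonoidHom.zsmul_apply, smul_smul, mul_comm]
    exact h1
  let β : (Fin r → ℚ) → (Fin r → ℚ) → QZ := fun X Y => ∑ p, ∑ q, if p < q then κ (X p * Y q * w p q) else 0
  have hβ : ∀ X Y, β X Y = ∑ p, ∑ q, if p < q then κ (X p * Y q * w p q) else 0 := fun _ _ => rfl
  refine ⟨r, k, AddMonoidHom.pi a, β, ?_, ?_, ?_, ?_⟩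
  · intro X X' Y
    rw [hβ, hβ, hβ, ← Finset.sum_add_distrib]
    refine Finset.sum_congr rfl fun p _ => ?_
    rw [← Finset.sum_add_distrib]
    refine Finset.sum_congr rfl fun q _ => ?_
    split_ifs
    · rw [← map_add, Pi.add_apply]
      congr 1
      ring
    · rw [add_zero]
  · intro X Y Y'
    rw [hβ, hβ, hβ, ← Finset.sum_add_distrib]
    refine Finset.sum_congr rfl fun p _ => ?_
    rw [← Finset.sum_add_distrib]
    refine Finset.sum_congr rfl fun q _ => ?_
    split_ifs
    · rw [← map_add, Pi.add_apply]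
      congr 1
      ring
    · rw [add_zero]
  · intro x hxk
    funext p
    exact hk p x hxk
  · intro x hxS y hyS
    obtain ⟨n, rfl⟩ := hx x hxS
    obtain ⟨m, rfl⟩ := hx y hyS
    have hval : ∀ n m : Fin r → ℤ, β (AddMonoidHom.pi a (∑ p, n p • e p)) (AddMonoidHom.pi a (∑ p, m p • e p)) =
        ∑ p, ∑ q, if p < q then (n p * m q) • ω (e p) (e q) else 0 := by
      intro n m
      rw [hβ]
      refine Finset.sum_congr rfl fun p _ => Finset.sum_congr rfl fun q _ => ?_
      split_ifs
      · have h2 : (AddMonoidHom.pi a (∑ p, n p • e p)) p * (AddMonoidHom.pi a (∑ p, m p • e p)) q * w p q =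
            (n p * m q) • w p q := by
          change a p (∑ p, n p • e p) * a q (∑ p, m p • e p) * w p q = _
          rw [hax, hax, zsmul_eq_mul]
          push_cast
          ring
        rw [h2, map_zsmul, hw]
      · rfl
    rw [hval, hval, hΩ]
    exact alt_sum _ hW0 hW1 n m

end Pool.Agent.LibPC42
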