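import Pool.Agent.LibPC42.W1

/-! The comparison of the values of two central extensions on a product of commutators. -/

set_option autoImplicit false

namespace Pool.Agent.LibPC42

open Pool.Agent.LibPF5
open scoped commutatorElement

/-- finitely many elements suffice for an element of a commutator subgroup -/
theorem finite_comm {Γ : Type} [Group Γ] (N : Subgroup Γ) (t : Γ) (ht : t ∈ ⁅N, N⁆) :
    ∃ S : Set Γ, S.Finite ∧ S ⊆ N ∧ t ∈ ⁅Subgroup.closure S, Subgroup.closure S⁆ := by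
  let K : Subgroup Γ :=
    { carrier := {x | ∃ S : Set Γ, S.Finite ∧ S ⊆ N ∧ x ∈ ⁅Subgroup.closure S, Subgroup.closure S⁆}
      one_mem' := ⟨∅, Set.finite_empty, Set.empty_subset _, Subgroup.one_mem _⟩
      mul_mem' := by
        rintro x y ⟨S, hS, hSN, hx⟩ ⟨S', hS', hSN', hy⟩
        refine ⟨S ∪ S', hS.union hS', Set.union_subset hSN hSN', Subgroup.mul_mem _ ?_ ?_⟩
        · exact Subgroup.commutator_mono (Subgroup.closure_mono Set.subset_union_left)
            (Subgroup.closure_mono Set.subset_union_left) hx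
        · exact Subgroup.commutator_mono (Subgroup.closure_mono Set.subset_union_right)
            (Subgroup.closure_mono Set.subset_union_right) hy
      inv_mem' := by
        rintro x ⟨S, hS, hSN, hx⟩
        exact ⟨S, hS, hSN, Subgroup.inv_mem _ hx⟩ }
  have h : ⁅N, N⁆ ≤ K := by
    rw [Subgroup.commutator_le]
    intro a ha b hb
    refine ⟨{a, b}, by simp, ?_, ?_⟩
    · rintro x (rfl | rfl)
      · exact ha
      · exact hb
    · exact Subgroup.commutator_mem_commutator (Subgroup.subset_closure (Or.inl rfl))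
        (Subgroup.subset_closure (Or.inr rfl))
  exact h ht

theorem compare {ι : Type} (hι : Group.FG (FreeGroup ι)) {Γ : Type} [Group Γ] (ψ : FreeGroup ι →* Γ)
    (h1 : ∀ k x, ∃ w, (ψ w)⁻¹ * x ∈ lcs Γ k) (h2 : ∀ k w, ψ w ∈ lcs Γ k → w ∈ lcs (FreeGroup ι) k)
    (n k : ℕ) (hnk : n ≤ k) {A E H : Type} [CommGroup A] [Group E] [Group H]
    (ζ : A →* E) (ζ' : A →* H) (hζ' : Function.Injective ζ') (θ : Γ →* E) (μ : lcs (FreeGroup ι) n →* H)
    (hμ : ∀ w : lcs (FreeGroup ι) n, (w : FreeGroup ι) ∈ ⁅lcs (FreeGroup ι) n, lcs (FreeGroup ι) k⁆ → μ w = 1)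
    (S : Set Γ) (hS : S ⊆ lcs Γ n)
    (hcom : ∀ u ∈ Subgroup.closure S, ∀ v ∈ Subgroup.closure S, ∀ w w' : lcs (FreeGroup ι) n,
      (ψ w)⁻¹ * u ∈ lcs Γ k → (ψ w')⁻¹ * v ∈ lcs Γ k → ∃ a : A, θ ⁅u, v⁆ = ζ a ∧ μ ⁅w, w'⁆ = ζ' a)
    (t : Γ) (htS : t ∈ ⁅Subgroup.closure S, Subgroup.closure S⁆) (ht : ∀ j, t ∈ lcs Γ j) : θ t = 1 := by
  have hmap : ∀ j w, w ∈ lcs (FreeGroup ι) j → ψ w ∈ lcs Γ j := fun j w hw => lcs_le_comap ψ j hw
  have hSn : Subgroup.closure S ≤ lcs Γ n := (Subgroup.closure_le _).2 hS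
  set D : Subgroup (FreeGroup ι) := ⁅lcs (FreeGroup ι) n, lcs (FreeGroup ι) k⁆ with hD
  have hDn : D.Normal := by rw [hD]; infer_instance
  have hDk : D ≤ lcs (FreeGroup ι) k := Subgroup.commutator_le_right _ _
  -- the set of the elements which can be compared
  let K : Subgroup Γ :=
    { carrier := {z | ∃ (w : lcs (FreeGroup ι) n) (a : A),
        (w : FreeGroup ι) ∈ ⁅lcs (FreeGroup ι) n, lcs (FreeGroup ι) n⁆ ∧ θ z = ζ a ∧ μ w = ζ' a ∧
          ∀ j, k ≤ j → ∃ d ∈ D, (ψ (w * d))⁻¹ * z ∈ lcs Γ j}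
      one_mem' := ⟨1, 1, Subgroup.one_mem _, by rw [map_one, map_one], by rw [map_one, map_one],
        fun j _ => ⟨1, D.one_mem, by
          have h3 : (ψ (((1 : lcs (FreeGroup ι) n) : FreeGroup ι) * 1))⁻¹ * (1 : Γ) = 1 := by simp
          rw [h3]
          exact Subgroup.one_mem _⟩⟩
      mul_mem' := by
        rintro z z' ⟨w, a, hw, e1, e2, e3⟩ ⟨w', a', hw', e1', e2', e3'⟩
        refine ⟨w * w', a * a', Subgroup.mul_mem _ hw hw', by rw [map_mul, map_mul, e1, e1'],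
          by rw [map_mul, map_mul, e2, e2'], fun j hj => ?_⟩
        obtain ⟨d, hd, e4⟩ := e3 j hj
        obtain ⟨d', hd', e4'⟩ := e3' j hj
        refine ⟨(w' : FreeGroup ι)⁻¹ * d * w' * d', D.mul_mem ?_ hd', ?_⟩
        · have := hDn.conj_mem d hd (w' : FreeGroup ι)⁻¹
          rwa [inv_inv] at this
        · have hn : (lcs Γ j).Normal := inferInstance
          have e5 : ((w * w' : lcs (FreeGroup ι) n) : FreeGroup ι) * ((w' : FreeGroup ι)⁻¹ * d * w' * d') =
              (w * d) * (w' * d') := by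
            rw [Subgroup.coe_mul]
            group
          rw [e5, map_mul]
          have e6 : (ψ (w * d) * ψ (w' * d'))⁻¹ * (z * z') =
              ((ψ (w' * d'))⁻¹ * ((ψ (w * d))⁻¹ * z) * (ψ (w' * d'))⁻¹⁻¹) * ((ψ (w' * d'))⁻¹ * z') := by
            group
          rw [e6]
          exact Subgroup.mul_mem _ (hn.conj_mem _ e4 _) e4'
      inv_mem' := by
        rintro z ⟨w, a, hw, e1, e2, e3⟩
        refine ⟨w⁻¹, a⁻¹, Subgroup.inv_mem _ hw, by rw [map_inv, map_inv, e1], by rw [map_inv, map_inv, e2],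
          fun j hj => ?_⟩
        obtain ⟨d, hd, e4⟩ := e3 j hj
        have hn : (lcs Γ j).Normal := inferInstance
        refine ⟨(w : FreeGroup ι) * d⁻¹ * (w : FreeGroup ι)⁻¹, hDn.conj_mem _ (D.inv_mem hd) _, ?_⟩
        have e5 : ((w⁻¹ : lcs (FreeGroup ι) n) : FreeGroup ι) * ((w : FreeGroup ι) * d⁻¹ * (w : FreeGroup ι)⁻¹) =
            (w * d)⁻¹ := by
          rw [Subgroup.coe_inv]
          group
        rw [e5, map_inv]
        have e6 : (ψ (w * d))⁻¹⁻¹ * z⁻¹ = ψ (w * d) * ((ψ (w * d))⁻¹ * z)⁻¹ * (ψ (w * d))⁻¹ := by group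
        rw [e6]
        exact hn.conj_mem _ (Subgroup.inv_mem _ e4) _ }
  have hK : ⁅Subgroup.closure S, Subgroup.closure S⁆ ≤ K := by
    rw [Subgroup.commutator_le]
    intro u hu v hv
    have hlift : ∀ j, n ≤ j → ∀ x ∈ Subgroup.closure S, ∃ w : lcs (FreeGroup ι) n, (ψ w)⁻¹ * x ∈ lcs Γ j := by
      intro j hj x hx
      obtain ⟨w, hw⟩ := h1 j x
      have h3 : ψ w ∈ lcs Γ n := by
        have h4 : ψ w = x * ((ψ w)⁻¹ * x)⁻¹ := by group
        rw [h4]
        exact Subgroup.mul_mem _ (hSn hx) (Subgroup.inv_mem _ (anti hj hw))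
      exact ⟨⟨w, h2 n w h3⟩, hw⟩
    obtain ⟨w, hw⟩ := hlift k hnk u hu
    obtain ⟨w', hw'⟩ := hlift k hnk v hv
    obtain ⟨a, ea, eb⟩ := hcom u hu v hv w w' hw hw'
    refine ⟨⁅w, w'⁆, a, ?_, ea, eb, fun j hj => ?_⟩
    · exact Subgroup.commutator_mem_commutator w.2 w'.2
    · obtain ⟨v₁, hv₁⟩ := hlift j (hnk.trans hj) u hu
      obtain ⟨v₂, hv₂⟩ := hlift j (hnk.trans hj) v hv
      have hn : (lcs Γ j).Normal := inferInstance
      -- `v₁ = w d₁`, `v₂ = w' d₂` with `d₁`, `d₂` in `lcs k`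
      have hd : ∀ (x : Γ) (w v : lcs (FreeGroup ι) n), (ψ w)⁻¹ * x ∈ lcs Γ k → (ψ v)⁻¹ * x ∈ lcs Γ j →
          (w : FreeGroup ι)⁻¹ * v ∈ lcs (FreeGroup ι) k := by
        intro x w v h3 h4
        apply h2
        have h5 : ψ ((w : FreeGroup ι)⁻¹ * v) = ((ψ w)⁻¹ * x) * ((ψ v)⁻¹ * x)⁻¹ := by
          rw [map_mul, map_inv]
          group
        rw [h5]
        exact Subgroup.mul_mem _ h3 (Subgroup.inv_mem _ (anti hj h4))
      have hq1 := hd u w v₁ hw hv₁
      have hq2 := hd v w' v₂ hw' hv₂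
      refine ⟨(⁅(w : FreeGroup ι), (w' : FreeGroup ι)⁆)⁻¹ * ⁅(v₁ : FreeGroup ι), (v₂ : FreeGroup ι)⁆, ?_, ?_⟩
      · -- commutators modulo `D`
        have hDn' := hDn
        rw [← QuotientGroup.eq]
        change QuotientGroup.mk' D _ = QuotientGroup.mk' D _
        have hcen : ∀ x : lcs (FreeGroup ι) n, ∀ y ∈ lcs (FreeGroup ι) k,
            QuotientGroup.mk' D x * QuotientGroup.mk' D y = QuotientGroup.mk' D y * QuotientGroup.mk' D x := by
          intro x y hy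
          rw [← commutatorElement_eq_one_iff_mul_comm, ← map_commutatorElement]
          exact (QuotientGroup.eq_one_iff _).2 (Subgroup.commutator_mem_commutator x.2 hy)
        have e7 : ∀ x y : lcs (FreeGroup ι) n, (x : FreeGroup ι)⁻¹ * y ∈ lcs (FreeGroup ι) k →
            ∃ z ∈ lcs (FreeGroup ι) k, (y : FreeGroup ι) = x * z := fun x y h => ⟨_, h, by group⟩
        obtain ⟨z₁, hz₁, e8⟩ := e7 w v₁ hq1
        obtain ⟨z₂, hz₂, e9⟩ := e7 w' v₂ hq2
        have hz₁n : z₁ ∈ lcs (FreeGroup ι) n := anti hnk hz₁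
        have hz₂n : z₂ ∈ lcs (FreeGroup ι) n := anti hnk hz₂
        have c1 := hcen w z₁ hz₁
        have c2 := hcen w' z₁ hz₁
        have c3 := hcen w z₂ hz₂
        have c4 := hcen w' z₂ hz₂
        have c5 := hcen ⟨z₁, hz₁n⟩ z₂ hz₂
        rw [map_commutatorElement, map_commutatorElement, e8, e9, map_mul, map_mul]
        generalize QuotientGroup.mk' D (w : FreeGroup ι) = X at *
        generalize QuotientGroup.mk' D (w' : FreeGroup ι) = Y at *
        generalize QuotientGroup.mk' D z₁ = U at *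
        generalize QuotientGroup.mk' D z₂ = W at *
        have e10 : ∀ X Y U : (FreeGroup ι) ⧸ D, X * U = U * X → Y * U = U * Y → ⁅X * U, Y⁆ = ⁅X, Y⁆ := by
          intro X Y U h3 h4
          rw [commutatorElement_def, commutatorElement_def, mul_inv_rev]
          calc X * U * Y * (U⁻¹ * X⁻¹) * Y⁻¹ = X * (U * Y) * U⁻¹ * X⁻¹ * Y⁻¹ := by group
            _ = X * (Y * U) * U⁻¹ * X⁻¹ * Y⁻¹ := by rw [h4]
            _ = _ := by group
        have e11 : ⁅X * U, Y * W⁆ = ⁅X, Y * W⁆ := by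
          apply e10 X (Y * W) U c1
          rw [mul_assoc, ← c5, ← mul_assoc, c2, mul_assoc]
        have e12 : ⁅X, Y * W⁆ = ⁅X, Y⁆ := by
          rw [← commutatorElement_inv, ← commutatorElement_inv Y X, e10 Y X W c4 c3]
        rw [e11, e12]
      · have e13 : ((⁅w, w'⁆ : lcs (FreeGroup ι) n) : FreeGroup ι) *
            ((⁅(w : FreeGroup ι), (w' : FreeGroup ι)⁆)⁻¹ * ⁅(v₁ : FreeGroup ι), (v₂ : FreeGroup ι)⁆) =
            ⁅(v₁ : FreeGroup ι), (v₂ : FreeGroup ι)⁆ := mul_inv_cancel_left _ _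
        rw [e13, map_commutatorElement, ← QuotientGroup.eq]
        change QuotientGroup.mk' (lcs Γ j) _ = QuotientGroup.mk' (lcs Γ j) _
        have e14 : QuotientGroup.mk' (lcs Γ j) (ψ v₁) = QuotientGroup.mk' (lcs Γ j) u := QuotientGroup.eq.2 hv₁
        have e15 : QuotientGroup.mk' (lcs Γ j) (ψ v₂) = QuotientGroup.mk' (lcs Γ j) v := QuotientGroup.eq.2 hv₂
        rw [map_commutatorElement, map_commutatorElement, e14, e15]
  obtain ⟨w, a, hw, e1, e2, e3⟩ := hK htS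
  have h3 : (w : FreeGroup ι) ∈ D := by
    apply lemW hι n k hnk w hw
    intro j
    obtain ⟨d, hd, e4⟩ := e3 (max k j) (le_max_left _ _)
    refine ⟨d, hd, anti (le_max_right k j) (h2 _ _ ?_)⟩
    have h5 : ψ (w * d) = t * ((ψ (w * d))⁻¹ * t)⁻¹ := by group
    rw [h5]
    exact Subgroup.mul_mem _ (ht _) (Subgroup.inv_mem _ e4)
  rw [hμ w h3] at e2
  have ha : a = 1 := hζ' (by rw [← e2, map_one])
  rw [e1, ha, map_one]

end Pool.Agent.LibPC42
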