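import Pool.Agent.LibPF5.X1

/-! Central extensions defined by 2-cocycles. -/

set_option autoImplicit false

namespace Pool.Agent.LibPC42

open Pool.Agent.LibPF5
open scoped commutatorElement

/-- the central extension defined by a 2-cocycle -/
def Ext {L T : Type} [Group L] [AddCommGroup T] (c : L → L → T) (_ : Coc c) : Type := X1Ext c

instance {L T : Type} [Group L] [AddCommGroup T] (c : L → L → T) (hc : Coc c) : Group (Ext c hc) := X1Group hc

section

variable {L T : Type} [Group L] [AddCommGroup T] {c : L → L → T} {hc : Coc c}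

/-- the first coordinate -/
def fa (x : Ext c hc) : L := X1Ext.a x

/-- the second coordinate -/
def fb (x : Ext c hc) : T := X1Ext.b x

/-- the element with given coordinates -/
def mk (hc : Coc c) (a : L) (b : T) : Ext c hc := (⟨a, b⟩ : X1Ext c)

theorem ext_ext {x y : Ext c hc} (h1 : fa x = fa y) (h2 : fb x = fb y) : x = y := X1_ext h1 h2

@[simp] theorem fa_mk (a : L) (b : T) : fa (mk hc a b) = a := rfl

@[simp] theorem fb_mk (a : L) (b : T) : fb (mk hc a b) = b := rfl

theorem fa_mul (x y : Ext c hc) : fa (x * y) = fa x * fa y := rfl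

theorem fb_mul (x y : Ext c hc) : fb (x * y) = fb x + fb y + c (fa x) (fa y) := rfl

theorem fa_one : fa (1 : Ext c hc) = 1 := rfl

theorem fb_one : fb (1 : Ext c hc) = - c 1 1 := rfl

/-- the projection -/
def proj (hc : Coc c) : Ext c hc →* L := MonoidHom.mk' fa fa_mul

theorem proj_surj : Function.Surjective (proj hc) := fun x => ⟨mk hc x 0, rfl⟩

/-- the kernel -/
def zt (hc : Coc c) : Multiplicative T →* Ext c hc := MonoidHom.mk' (fun t => mk hc 1 (Multiplicative.toAdd t - c 1 1)) (by
  intro s t
  apply ext_ext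
  · rw [fa_mul, fa_mk, fa_mk, fa_mk, mul_one]
  · rw [fb_mul, fb_mk, fb_mk, fb_mk, fa_mk, fa_mk, toAdd_mul]
    abel)

theorem fb_zt (t : Multiplicative T) : fb (zt hc t) = Multiplicative.toAdd t - c 1 1 := rfl

theorem fa_zt (t : Multiplicative T) : fa (zt hc t) = 1 := rfl

theorem zt_inj : Function.Injective (zt hc) := by
  intro s t h
  have h1 := congrArg fb h
  rw [fb_zt, fb_zt] at h1
  exact Multiplicative.toAdd.injective (sub_left_injective h1)

theorem zt_comm (t : Multiplicative T) (x : Ext c hc) : zt hc t * x = x * zt hc t := by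
  apply ext_ext
  · rw [fa_mul, fa_mul, fa_zt, one_mul, mul_one]
  · rw [fb_mul, fb_mul, fa_zt, fb_zt, (X1_one hc (fa x)).1, (X1_one hc (fa x)).2]
    abel

theorem eq_zt {x : Ext c hc} (h : fa x = 1) : x = zt hc (Multiplicative.ofAdd (fb x + c 1 1)) := by
  apply ext_ext
  · rw [fa_zt, h]
  · rw [fb_zt, toAdd_ofAdd]
    abel

theorem proj_ker : (proj hc).ker ≤ Subgroup.center (Ext c hc) := by
  intro x hx
  rw [Subgroup.mem_center_iff]
  intro g
  rw [eq_zt (show fa x = 1 from hx)]
  exact (zt_comm _ g).symm

/-- commutators of elements with commuting images -/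
theorem comm_zt (u v : Ext c hc) (h : fa u * fa v = fa v * fa u) :
    ⁅u, v⁆ = zt hc (Multiplicative.ofAdd (c (fa u) (fa v) - c (fa v) (fa u))) := by
  have h1 : u * v = zt hc (Multiplicative.ofAdd (c (fa u) (fa v) - c (fa v) (fa u))) * (v * u) := by
    apply ext_ext
    · rw [fa_mul, fa_mul, fa_zt, one_mul, fa_mul, h]
    · rw [fb_mul, fb_mul, fa_zt, fb_zt, toAdd_ofAdd, fb_mul, (X1_one hc (fa (v * u))).1]
      abel
  rw [commutatorElement_def, h1]
  group

end

/-- the pullback of a cocycle -/
theorem Coc.pull {P L T : Type} [Group P] [Group L] [AddCommGroup T] {c : L → L → T} (hc : Coc c)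
    (f : P →* L) : Coc (fun x y => c (f x) (f y)) := by
  intro x y z
  simp only [map_mul]
  exact hc _ _ _

/-- the homomorphism between the extensions -/
def mapE {P L T : Type} [Group P] [Group L] [AddCommGroup T] {c : L → L → T} (hc : Coc c)
    (f : P →* L) : Ext (fun x y => c (f x) (f y)) (Coc.pull hc f) →* Ext c hc :=
  MonoidHom.mk' (fun x => mk hc (f (fa x)) (fb x)) (by
    intro x y
    apply ext_ext
    · show f (fa x * fa y) = f (fa x) * f (fa y)
      rw [map_mul]
    · rfl)

/-- bilinearity of the commutator pairing -/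
theorem pair_left {L T : Type} [Group L] [AddCommGroup T] {c : L → L → T} (hc : Coc c) {x y z : L}
    (hxz : x * z = z * x) (hyz : y * z = z * y) :
    c (x * y) z - c z (x * y) = (c x z - c z x) + (c y z - c z y) := by
  have h1 := hc x y z
  have h2 := hc z x y
  have h3 := hc x z y
  rw [hxz] at h3
  rw [hyz] at h1
  have e1 : c (x * y) z = c y z + c x (z * y) - c x y := by rw [← h1]; abel
  have e2 : c z (x * y) = c z x + c (z * x) y - c x y := by rw [h2]; abel
  have e3 : c (z * x) y = c z y + c x (z * y) - c x z := by rw [← h3]; abel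
  rw [e1, e2, e3]
  abel

theorem pair_right {L T : Type} [Group L] [AddCommGroup T] {c : L → L → T} (hc : Coc c) {x y z : L}
    (hxz : x * z = z * x) (hyz : y * z = z * y) :
    c z (x * y) - c (x * y) z = (c z x - c x z) + (c z y - c y z) := by
  have h := pair_left hc hxz hyz
  rw [← neg_sub, h]
  abel

end Pool.Agent.LibPC42
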