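import Pool.Agent.LibPC42.W3
import Pool.Agent.LibPC42.W5

/-! The rank of the free group is finite; lifts from free groups; the multiplicative form of `ext_form`. -/

set_option autoImplicit false

namespace Pool.Agent.LibPC42

open Pool.Agent.LibPF5
open scoped commutatorElement

private theorem W6_comm {G A : Type} [Group G] [CommGroup A] (χ : G →* A) (x : G) (hx : x ∈ lcs G 1) :
    χ x = 1 := by
  have h : lcs G 1 ≤ χ.ker := by
    change ⁅(⊤ : Subgroup G), ⊤⁆ ≤ _
    rw [Subgroup.commutator_le]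
    intro a _ b _
    rw [MonoidHom.mem_ker, map_commutatorElement, commutatorElement_eq_one_iff_mul_comm]
    exact mul_comm _ _
  exact h hx

private theorem W6_avoid {ι A : Type} [DecidableEq ι] [CommGroup A] (i : ι) (a : A) (w : FreeGroup ι)
    (hw : ∀ x ∈ w.toWord, x.1 ≠ i) : FreeGroup.lift (fun k => if k = i then a else 1) w = 1 := by
  conv_lhs => rw [← FreeGroup.mk_toWord (x := w)]
  rw [FreeGroup.lift_mk]
  apply List.prod_eq_one
  intro y hy
  rw [List.mem_map] at hy
  obtain ⟨⟨k, b⟩, hx, rfl⟩ := hy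
  have h1 : k ≠ i := hw _ hx
  cases b <;> simp [h1]

theorem W6_finite (P : Type) [Group P] (ι : Type) (φ : FreeGroup ι →* P) (hfg : Group.FG P)
    (h1 : ∀ w, φ w ∈ lcs P 1 → w ∈ lcs (FreeGroup ι) 1) (h2 : ∀ p, ∃ w, (φ w)⁻¹ * p ∈ lcs P 1) :
    Finite ι := by
  classical
  by_contra hinf
  rw [not_finite_iff_infinite] at hinf
  obtain ⟨S, hS, hSf⟩ := Group.fg_iff.mp hfg
  choose w hw using h2
  let L : Set ι := ⋃ s ∈ S, {i | ∃ x ∈ (w s).toWord, x.1 = i}
  have hL : L.Finite := by
    apply hSf.biUnion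
    intro s _
    have : {i | ∃ x ∈ (w s).toWord, x.1 = i} = ((w s).toWord.map Prod.fst).toFinset := by
      ext i; simp
    rw [this]
    exact Finset.finite_toSet _
  obtain ⟨i, hi⟩ := hL.exists_notMem
  let χ : FreeGroup ι →* Multiplicative ℤ :=
    FreeGroup.lift (fun k => if k = i then Multiplicative.ofAdd (1 : ℤ) else 1)
  have hχw : ∀ s ∈ S, χ (w s) = 1 := by
    intro s hs
    apply W6_avoid
    intro x hx hxi
    exact hi (Set.mem_biUnion hs ⟨x, hx, hxi⟩)
  have hcong : ∀ u v : FreeGroup ι, (φ u)⁻¹ * φ v ∈ lcs P 1 → χ u = χ v := by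
    intro u v h
    rw [← map_inv, ← map_mul] at h
    have := W6_comm χ _ (h1 _ h)
    rw [map_mul, map_inv, inv_mul_eq_one] at this
    exact this
  have : (lcs P 1).Normal := inferInstance
  have hcls : ∀ (p : P) (u : FreeGroup ι), (φ u)⁻¹ * p ∈ lcs P 1 → χ u = χ (w p) := by
    intro p u h
    apply hcong
    have h3 : (φ u)⁻¹ * φ (w p) = ((φ u)⁻¹ * p) * ((φ (w p))⁻¹ * p)⁻¹ := by group
    rw [h3]
    exact mul_mem h (inv_mem (hw p))
  let χ' : P →* Multiplicative ℤ := MonoidHom.mk' (fun p => χ (w p)) (by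
    intro p r
    rw [← map_mul]
    symm
    apply hcls
    have h3 : (φ (w p * w r))⁻¹ * (p * r) =
        ((φ (w r))⁻¹ * ((φ (w p))⁻¹ * p) * (φ (w r))⁻¹⁻¹) * ((φ (w r))⁻¹ * r) := by
      rw [map_mul]; group
    rw [h3]
    exact mul_mem (Subgroup.Normal.conj_mem ‹_› _ (hw p) _) (hw r))
  have htriv : χ' = 1 := by
    apply MonoidHom.eq_of_eqOn_dense hS
    intro s hs
    exact hχw s hs
  have h5 : χ (FreeGroup.of i) = χ' (φ (FreeGroup.of i)) := by
    apply hcls
    rw [inv_mul_cancel]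
    exact one_mem _
  rw [htriv] at h5
  simp [χ] at h5


/-- a homomorphism from a subgroup of a free group lifts along a surjection -/
theorem free_lift {ι : Type} (N : Subgroup (FreeGroup ι)) {H Q : Type} [Group H] [Group Q] (p : H →* Q)
    (hp : Function.Surjective p) (α : N →* Q) : ∃ μ : N →* H, ∀ w, p (μ w) = α w := by
  have : IsFreeGroup N := inferInstance
  choose s hs using hp
  refine ⟨IsFreeGroup.lift (fun g => s (α (IsFreeGroup.of g))), fun w => ?_⟩
  have h : p.comp (IsFreeGroup.lift (fun g => s (α (IsFreeGroup.of g)))) = α := by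
    apply IsFreeGroup.ext_hom
    intro g
    rw [MonoidHom.comp_apply, IsFreeGroup.lift_of, hs]
  exact DFunLike.congr_fun h w

theorem ext_mul {L : Type} [Group L] (hL : ∀ x : L, (∀ k, ∃ m : ℕ, 0 < m ∧ x ^ m ∈ lcs L k) → x = 1)
    (n : ℕ) (hab : ∀ x ∈ lcs L n, ∀ y ∈ lcs L n, x * y = y * x) (c : L → L → QZ) (hc : Coc c)
    (S : Set (lcs L n)) (hS : S.Finite) :
    ∃ (r k : ℕ) (a : lcs L n →* Multiplicative (Fin r → ℚ)) (β : (Fin r → ℚ) → (Fin r → ℚ) → QZ),
      (∀ X X' Y, β (X + X') Y = β X Y + β X' Y) ∧ (∀ X Y Y', β X (Y + Y') = β X Y + β X Y') ∧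
      (∀ x : lcs L n, (x : L) ∈ lcs L k → a x = 1) ∧
      ∀ x ∈ Subgroup.closure S, ∀ y ∈ Subgroup.closure S,
        β (Multiplicative.toAdd (a x)) (Multiplicative.toAdd (a y)) -
          β (Multiplicative.toAdd (a y)) (Multiplicative.toAdd (a x)) = c x y - c y x := by
  let _ : CommGroup (lcs L n) := { (inferInstance : Group (lcs L n)) with
    mul_comm := fun x y => Subtype.ext (hab x x.2 y y.2) }
  let F : ℕ → AddSubgroup (Additive (lcs L n)) := fun k => Subgroup.toAddSubgroup ((lcs L k).subgroupOf (lcs L n))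
  have hFm : ∀ k (x : Additive (lcs L n)), x ∈ F k ↔ ((Additive.toMul x : lcs L n) : L) ∈ lcs L k :=
    fun k x => Iff.rfl
  let S' : Finset (Additive (lcs L n)) := hS.toFinset
  obtain ⟨r, k, a, β, h1, h2, h3, h4⟩ := ext_form F
    (fun i j hij x hx => (hFm i x).2 (Subgroup.lowerCentralSeries_antitone ⊤ hij ((hFm j x).1 hx)))
    (by
      intro x hx
      have h5 : ((Additive.toMul x : lcs L n) : L) = 1 := by
        apply hL
        intro k
        obtain ⟨m, hm, hx'⟩ := hx k
        exact ⟨m, hm, hx'⟩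
      exact Subtype.ext h5)
    S'
    (fun x y => c (Additive.toMul x : lcs L n) (Additive.toMul y : lcs L n) -
      c (Additive.toMul y : lcs L n) (Additive.toMul x : lcs L n))
    (fun x x' y => pair_left hc (hab _ (Additive.toMul x).2 _ (Additive.toMul y).2)
      (hab _ (Additive.toMul x').2 _ (Additive.toMul y).2))
    (fun x y y' => pair_right hc (hab _ (Additive.toMul y).2 _ (Additive.toMul x).2)
      (hab _ (Additive.toMul y').2 _ (Additive.toMul x).2))
    (fun x => sub_self _)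
  have hcl : ∀ x ∈ Subgroup.closure S, (Additive.ofMul x) ∈
      AddSubgroup.closure (S' : Set (Additive (lcs L n))) := by
    intro x hx
    induction hx using Subgroup.closure_induction with
    | mem x hx => exact AddSubgroup.subset_closure (hS.mem_toFinset.2 hx)
    | one => exact AddSubgroup.zero_mem _
    | mul x y _ _ ihx ihy => exact AddSubgroup.add_mem _ ihx ihy
    | inv x _ ih => exact AddSubgroup.neg_mem _ ih
  exact ⟨r, k, AddMonoidHom.toMultiplicativeRight a, β, h1, h2, fun x hx => h3 (Additive.ofMul x) hx,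
    fun x hx y hy => h4 _ (hcl x hx) _ (hcl y hy)⟩

end Pool.Agent.LibPC42
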