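import Pool.Agent.LibPC42.W4
import Pool.Agent.LibPC42.W6
import Pool.Agent.LibPF5.C3

/-! The pullback of a 2-cocycle of a residually torsion-free nilpotent, abelian-by-nilpotent group to a finitely generated
group with the nilpotent quotients of a free group is a coboundary. -/

set_option autoImplicit false

namespace Pool.Agent.LibPC42

open Pool.Agent.LibPF5
open scoped commutatorElement

/-- the restriction of a homomorphism to the terms of the lower central series -/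
def lmap {G L : Type} [Group G] [Group L] (f : G →* L) (n : ℕ) : lcs G n →* lcs L n :=
  (f.comp (lcs G n).subtype).codRestrict (lcs L n) (fun x => lcs_le_comap f n x.2)

theorem lmap_coe {G L : Type} [Group G] [Group L] (f : G →* L) (n : ℕ) (x : lcs G n) :
    (lmap f n x : L) = f x := rfl

/-- the cocycle of a bilinear form -/
theorem coc_bil {r : ℕ} (β : (Fin r → ℚ) → (Fin r → ℚ) → QZ) (h1 : ∀ X X' Y, β (X + X') Y = β X Y + β X' Y)
    (h2 : ∀ X Y Y', β X (Y + Y') = β X Y + β X Y') :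
    Coc (fun X Y : Multiplicative (Fin r → ℚ) => β (Multiplicative.toAdd X) (Multiplicative.toAdd Y)) := by
  intro x y z
  simp only [toAdd_mul]
  rw [h1, h2]
  abel

/-- the elements of the extension group which are in the kernel of the projection -/
theorem key {P L : Type} [Group P] [Group L] (f : P →* L)
    (hL : ∀ x : L, (∀ k, ∃ m : ℕ, 0 < m ∧ x ^ m ∈ lcs L k) → x = 1)
    (n : ℕ) (hab : ∀ x ∈ lcs L n, ∀ y ∈ lcs L n, x * y = y * x) (c : L → L → QZ) (hc : Coc c)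
    {ι : Type} (hι : Group.FG (FreeGroup ι)) (φ : FreeGroup ι →* P) (hφ : ∀ k w, φ w ∈ lcs P k → w ∈ lcs (FreeGroup ι) k)
    (E₂ : Subgroup (Ext (fun x y => c (f x) (f y)) (Coc.pull hc f))) (hfg2 : Group.FG E₂)
    (ψ : FreeGroup ι →* E₂) (hψ : ∀ w, fa (ψ w : Ext (fun x y => c (f x) (f y)) (Coc.pull hc f)) = φ w)
    (hmod : ∀ x : E₂, ∃ w, (ψ w)⁻¹ * x ∈ lcs E₂ 1)
    (t : E₂) (ht : fa (t : Ext (fun x y => c (f x) (f y)) (Coc.pull hc f)) = 1) : t = 1 := by
  let q₂ : E₂ →* P := (proj (Coc.pull hc f)).comp E₂.subtype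
  have hq₂ : ∀ w, q₂ (ψ w) = φ w := hψ
  have h2 : ∀ k w, ψ w ∈ lcs E₂ k → w ∈ lcs (FreeGroup ι) k := by
    intro k w hw
    apply hφ
    rw [← hq₂]
    exact lcs_le_comap q₂ k hw
  have hcen : t ∈ Subgroup.center E₂ := by
    have h1 := proj_ker (hc := Coc.pull hc f) (show (t : Ext (fun x y => c (f x) (f y)) (Coc.pull hc f)) ∈ _ from ht)
    rw [Subgroup.mem_center_iff] at h1 ⊢
    intro g
    exact Subtype.ext (h1 g)
  have hω : ∀ k, t ∈ lcs E₂ k := by
    intro k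
    obtain ⟨w, hw⟩ := C2 ψ hmod k t
    have h3 : q₂ ((ψ w)⁻¹ * t) ∈ lcs P k := lcs_le_comap q₂ k hw
    have h4 : q₂ ((ψ w)⁻¹ * t) = (φ w)⁻¹ := by
      rw [map_mul, map_inv, hq₂]
      change (φ w)⁻¹ * fa (t : Ext (fun x y => c (f x) (f y)) (Coc.pull hc f)) = (φ w)⁻¹
      rw [ht, mul_one]
    rw [h4, inv_mem_iff] at h3
    have h5 : ψ w ∈ lcs E₂ k := lcs_le_comap ψ k (hφ k w h3)
    have h6 := mul_mem h5 hw
    rwa [mul_inv_cancel_left] at h6
  obtain ⟨S, hS, hSn, htS⟩ := finite_comm _ t (L6 hfg2 n t hcen hω)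
  -- the images in `L`
  let g : lcs E₂ n →* lcs L n := lmap (f.comp q₂) n
  obtain ⟨r, k', a, β, hβ1, hβ2, hak, haω⟩ := ext_mul hL n hab c hc (g '' ((↑) ⁻¹' S))
    ((hS.preimage (Subtype.val_injective.injOn)).image g)
  have hcl : ∀ u (hu : u ∈ Subgroup.closure S) (hun : u ∈ lcs E₂ n),
      g ⟨u, hun⟩ ∈ Subgroup.closure (g '' ((↑) ⁻¹' S)) := by
    intro u hu hun
    rw [← MonoidHom.map_closure]
    refine ⟨⟨u, hun⟩, ?_, rfl⟩
    have h7 : Subgroup.closure S ≤ (Subgroup.closure ((↑) ⁻¹' S : Set (lcs E₂ n))).map (lcs E₂ n).subtype := by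
      rw [Subgroup.closure_le]
      intro s hs
      exact ⟨⟨s, hSn hs⟩, Subgroup.subset_closure hs, rfl⟩
    obtain ⟨v, hv, hvu⟩ := h7 hu
    have h8 : v = ⟨u, hun⟩ := Subtype.ext hvu
    rw [← h8]
    exact hv
  have hclS : Subgroup.closure S ≤ lcs E₂ n := (Subgroup.closure_le _).2 hSn
  set k := max n k' with hk
  have hak' : ∀ x : lcs L n, (x : L) ∈ lcs L k → a x = 1 := fun x hx => hak x (anti (le_max_right _ _) hx)
  -- the second extension
  let hβ := coc_bil β hβ1 hβ2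
  let α : lcs (FreeGroup ι) n →* Multiplicative (Fin r → ℚ) := a.comp (lmap (f.comp φ) n)
  obtain ⟨μ, hμ⟩ := free_lift (lcs (FreeGroup ι) n) (proj hβ) proj_surj α
  have hμa : ∀ w, fa (μ w) = α w := hμ
  have hμker : ∀ w : lcs (FreeGroup ι) n, (w : FreeGroup ι) ∈ ⁅lcs (FreeGroup ι) n, lcs (FreeGroup ι) k⁆ → μ w = 1 := by
    intro w hw
    have h9 : ⁅lcs (FreeGroup ι) n, lcs (FreeGroup ι) k⁆ ≤ μ.ker.map (lcs (FreeGroup ι) n).subtype := by
      rw [Subgroup.commutator_le]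
      intro x hx y hy
      have hyn : y ∈ lcs (FreeGroup ι) n := anti (le_max_left _ _) hy
      refine ⟨⁅(⟨x, hx⟩ : lcs (FreeGroup ι) n), ⟨y, hyn⟩⁆, ?_, rfl⟩
      have h10 : α ⟨y, hyn⟩ = 1 := hak' _ (lcs_le_comap (f.comp φ) k hy)
      have h11 : μ ⟨y, hyn⟩ = zt hβ (Multiplicative.ofAdd (fb (μ ⟨y, hyn⟩) +
          (fun X Y : Multiplicative (Fin r → ℚ) => β (Multiplicative.toAdd X) (Multiplicative.toAdd Y)) 1 1)) :=
        eq_zt (by rw [hμa, h10])
      change μ ⁅(⟨x, hx⟩ : lcs (FreeGroup ι) n), ⟨y, hyn⟩⁆ = 1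
      rw [map_commutatorElement, h11, commutatorElement_eq_one_iff_mul_comm]
      exact (zt_comm _ _).symm
    obtain ⟨v, hv, hvw⟩ := h9 hw
    have h12 : v = w := Subtype.ext hvw
    rw [← h12]
    exact hv
  let θ : E₂ →* Ext c hc := (mapE hc f).comp E₂.subtype
  have hθa : ∀ x : E₂, fa (θ x) = f (q₂ x) := fun x => rfl
  have hθ : θ t = 1 := by
    refine compare hι ψ (fun k x => C2 ψ hmod k x) h2 n k (le_max_left _ _) (zt hc) (zt hβ) zt_inj θ μ hμker S hSn
      ?_ t htS hω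
    intro u hu v hv w w' hw hw'
    have hgu : ((g ⟨u, hclS hu⟩ : lcs L n) : L) = f (q₂ u) := rfl
    have hgv : ((g ⟨v, hclS hv⟩ : lcs L n) : L) = f (q₂ v) := rfl
    refine ⟨Multiplicative.ofAdd (c (f (q₂ u)) (f (q₂ v)) - c (f (q₂ v)) (f (q₂ u))), ?_, ?_⟩
    · rw [map_commutatorElement]
      exact comm_zt _ _ (hab _ (g ⟨u, hclS hu⟩).2 _ (g ⟨v, hclS hv⟩).2)
    · rw [map_commutatorElement, comm_zt _ _ (mul_comm _ _)]
      have h13 : ∀ (x : E₂) (hx : x ∈ lcs E₂ n) (w : lcs (FreeGroup ι) n), (ψ w)⁻¹ * x ∈ lcs E₂ k →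
          fa (μ w) = a (g ⟨x, hx⟩) := by
        intro x hx w hw
        rw [hμa]
        have h14 : (lmap (f.comp φ) n w)⁻¹ * g ⟨x, hx⟩ ∈ a.ker := by
          apply hak'
          have h15 : (((lmap (f.comp φ) n w)⁻¹ * g ⟨x, hx⟩ : lcs L n) : L) = (f.comp q₂) ((ψ w)⁻¹ * x) := by
            rw [Subgroup.coe_mul, Subgroup.coe_inv, lmap_coe, lmap_coe, map_mul, map_inv, MonoidHom.comp_apply,
              MonoidHom.comp_apply f q₂ (ψ w), hq₂]
          rw [h15]
          exact lcs_le_comap (f.comp q₂) k hw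
        have h16 := (MonoidHom.mem_ker).1 h14
        rw [map_mul, map_inv, inv_mul_eq_one] at h16
        exact h16
      rw [h13 u (hclS hu) w hw, h13 v (hclS hv) w' hw']
      congr 2
      exact haω _ (hcl u hu _) _ (hcl v hv _)
  -- conclusion
  apply Subtype.ext
  apply ext_ext ht
  have h17 := congrArg fb hθ
  rw [fb_one] at h17
  change fb (t : Ext (fun x y => c (f x) (f y)) (Coc.pull hc f)) = _ at h17
  rw [h17, Subgroup.coe_one, fb_one, map_one]

theorem cob_pullback {P L : Type} [Group P] [Group L] (hP : NF P) (hfg : Group.FG P) (f : P →* L)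
    (hL : ∀ x : L, (∀ k, ∃ m : ℕ, 0 < m ∧ x ^ m ∈ lcs L k) → x = 1)
    (n : ℕ) (hab : ∀ x ∈ lcs L n, ∀ y ∈ lcs L n, x * y = y * x) (c : L → L → QZ) (hc : Coc c) :
    Cob (fun x y => c (f x) (f y)) := by
  obtain ⟨ι, φ, hφ⟩ := hP
  have hfin : Finite ι := W6_finite P ι φ hfg (hφ 1).1 (hφ 1).2
  have hι : Group.FG (FreeGroup ι) := inferInstance
  obtain ⟨E₂, ψ, hfg2, hsurj, hψ, hmod⟩ := C1 (Ext (fun x y => c (f x) (f y)) (Coc.pull hc f)) P
    (proj (Coc.pull hc f)) proj_surj proj_ker ι φ hfg (hφ 1).1 (hφ 1).2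
  let q₂ : E₂ →* P := (proj (Coc.pull hc f)).comp E₂.subtype
  have hbij : Function.Bijective q₂ := by
    constructor
    · rw [injective_iff_map_eq_one]
      intro t ht
      exact key f hL n hab c hc hι φ (fun k => (hφ k).1) E₂ hfg2 ψ hψ hmod t ht
    · exact hsurj
  let σ : P →* Ext (fun x y => c (f x) (f y)) (Coc.pull hc f) :=
    E₂.subtype.comp (MulEquiv.ofBijective q₂ hbij).symm.toMonoidHom
  have hσ : ∀ p, fa (σ p) = p := fun p => (MulEquiv.ofBijective q₂ hbij).apply_symm_apply p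
  refine ⟨fun p => - fb (σ p), fun x y => ?_⟩
  have h1 : fb (σ (x * y)) = fb (σ x) + fb (σ y) + c (f x) (f y) := by
    rw [map_mul, fb_mul, hσ, hσ]
  show c (f x) (f y) = - fb (σ x) + - fb (σ y) - - fb (σ (x * y))
  rw [h1]
  abel

end Pool.Agent.LibPC42
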