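import Pool.Agent.LibPC42.W7

/-! The homology step: if `f^*` kills all classes with values in `Q/Z` then `H_2(f;Z) = 0`. -/

set_option autoImplicit false

namespace Pool.Agent.LibPC42

open Pool.Agent.LibPF5

/-- the boundary map from 2-chains to 1-chains, trivial integral coefficients -/
private noncomputable def W8_d (G : Type) [Group G] : (G × G →₀ ℤ) →+ (G →₀ ℤ) :=
  Finsupp.liftAddHom (fun g => Finsupp.singleAddHom g.2 - Finsupp.singleAddHom (g.1 * g.2) +
    Finsupp.singleAddHom g.1)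

private theorem W8_d_single {G : Type} [Group G] (x y : G) (n : ℤ) :
    W8_d G (Finsupp.single (x, y) n) =
      Finsupp.single y n - Finsupp.single (x * y) n + Finsupp.single x n := by
  simp [W8_d]

private theorem W8_d_eq {G : Type} [Group G] (x : G × G →₀ ℤ) :
    (groupHomology.d₂₁ (Rep.trivial ℤ G ℤ)).hom x = W8_d G x := by
  induction x using Finsupp.induction_linear with
  | zero => rw [map_zero, map_zero]
  | add f g hf hg => rw [map_add, map_add, ← hf, ← hg]
  | single p n =>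
    obtain ⟨x, y⟩ := p
    rw [W8_d_single]
    exact groupHomology.d₂₁_single (A := Rep.trivial ℤ G ℤ) (x, y) n

private theorem W8_factor {G : Type} [Group G] (C : (G × G →₀ ℤ) →+ QZ)
    (φ : G → QZ) (h : ∀ x y, C (Finsupp.single (x, y) 1) = φ x + φ y - φ (x * y))
    (z : G × G →₀ ℤ) (hz : W8_d G z = 0) : C z = 0 := by
  let Φ : (G →₀ ℤ) →+ QZ := Finsupp.liftAddHom (fun g => (AddMonoidHom.flip (smulAddHom ℤ QZ) (φ g)))
  have hΦ : ∀ (x : G) (n : ℤ), Φ (Finsupp.single x n) = n • φ x := by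
    intro x n
    simp [Φ]
  have key : C = Φ.comp (W8_d G) := by
    apply Finsupp.addHom_ext
    rintro ⟨x, y⟩ n
    have h1 : C (Finsupp.single (x, y) n) = n • C (Finsupp.single (x, y) 1) := by
      rw [← map_zsmul, Finsupp.smul_single, smul_eq_mul, mul_one]
    rw [AddMonoidHom.comp_apply, W8_d_single, map_add, map_sub, hΦ, hΦ, hΦ, h1, h]
    rw [smul_sub, smul_add]
    abel
  rw [key, AddMonoidHom.comp_apply, hz, map_zero]

private theorem W8_coc {G : Type} [Group G] (C : (G × G →₀ ℤ) →+ QZ)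
    (h : ∀ b ∈ groupHomology.boundaries₂ (Rep.trivial ℤ G ℤ), C b = 0) :
    Coc (fun x y : G => C (Finsupp.single (x, y) 1)) := by
  intro x y w
  have h1 := h ((groupHomology.d₃₂ (Rep.trivial ℤ G ℤ)).hom (Finsupp.single (x, y, w) (1 : ℤ)))
    ⟨_, rfl⟩
  have h2 : (groupHomology.d₃₂ (Rep.trivial ℤ G ℤ)).hom (Finsupp.single (x, y, w) (1 : ℤ)) =
      (Finsupp.single (y, w) (1 : ℤ) - Finsupp.single (x * y, w) (1 : ℤ) +
      Finsupp.single (x, y * w) (1 : ℤ) - Finsupp.single (x, y) (1 : ℤ) : G × G →₀ ℤ) :=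
    groupHomology.d₃₂_single (A := Rep.trivial ℤ G ℤ) (x, y, w) 1
  rw [h2, map_sub, map_add, map_sub] at h1
  show C (Finsupp.single (x, y) 1) + C (Finsupp.single (x * y, w) 1) =
    C (Finsupp.single (y, w) 1) + C (Finsupp.single (x, y * w) 1)
  have h3 := sub_eq_zero.1 h1
  rw [← h3]
  abel

private theorem W8_chi {A : Type} [AddCommGroup A] (X : Submodule ℤ A) (z : A) (hz : z ∉ X) :
    ∃ C : A →+ QZ, (∀ x ∈ X, C x = 0) ∧ C z ≠ 0 := by
  have hne : X.mkQ z ≠ 0 := by
    intro h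
    exact hz ((Submodule.Quotient.mk_eq_zero X).1 h)
  obtain ⟨χ, hχ⟩ := CharacterModule.exists_character_apply_ne_zero_of_ne_zero hne
  refine ⟨(χ : (A ⧸ X) →+ QZ).comp X.mkQ.toAddMonoidHom, ?_, hχ⟩
  intro x hx
  have : X.mkQ x = 0 := (Submodule.Quotient.mk_eq_zero X).2 hx
  show χ (X.mkQ x) = 0
  rw [this]
  exact map_zero (χ : (A ⧸ X) →+ QZ)

/-- if the pull-back under `f` of every 2-cocycle with values in `Q/Z` is a coboundary, then
`H_2(f;Z) = 0`. -/
theorem W8_zero (P L : Type) [Group P] [Group L] (f : P →* L)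
    (h : ∀ c : L → L → QZ, Coc c → Cob (fun x y : P => c (f x) (f y)))
    (y : groupHomology (Rep.trivial ℤ P ℤ) 2) :
    (groupHomology.map f (CategoryTheory.CategoryStruct.id (Rep.trivial ℤ P ℤ)) 2 :
        groupHomology (Rep.trivial ℤ P ℤ) 2 ⟶ groupHomology (Rep.trivial ℤ L ℤ) 2) y = 0 := by
  induction y using groupHomology.H2_induction_on with
  | h z =>
    let cm : (P × P →₀ ℤ) →ₗ[ℤ] (L × L →₀ ℤ) :=
      (groupHomology.chainsMap₂ f (A := Rep.trivial ℤ P ℤ) (B := Rep.trivial ℤ L ℤ)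
        (CategoryTheory.CategoryStruct.id (Rep.trivial ℤ P ℤ))).hom
    have hcm : ∀ (x y : P) (n : ℤ), cm (Finsupp.single (x, y) n) =
        Finsupp.single (f x, f y) n := by
      intro x y n
      simp [cm]
      rfl
    have hz : cm z.1 ∈ groupHomology.boundaries₂ (Rep.trivial ℤ L ℤ) := by
      by_contra hz
      obtain ⟨C, hC, hCz⟩ := W8_chi (A := L × L →₀ ℤ)
        (groupHomology.boundaries₂ (Rep.trivial ℤ L ℤ)) (cm z.1) hz
      apply hCz
      obtain ⟨φ, hφ⟩ := h _ (W8_coc C hC)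
      refine W8_factor (C.comp cm.toAddMonoidHom) φ ?_ z.1 ?_
      · intro x y
        rw [← hφ x y]
        show C (cm (Finsupp.single (x, y) 1)) = _
        rw [hcm]
      · rw [← W8_d_eq]
        exact z.2
    rw [groupHomology.H2π_comp_map_apply]
    rw [groupHomology.H2π_eq_zero_iff]
    exact hz

/-- Theorem C. -/
theorem thmC (P : Type) [Group P] (hP : NilFree P) (hfg : Group.FG P) (L : Type) [Group L]
    (hL : ∀ x : L, (∀ k, ∃ m : ℕ, 0 < m ∧ x ^ m ∈ lcs L k) → x = 1)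
    (n : ℕ) (hab : ∀ x ∈ lcs L n, ∀ y ∈ lcs L n, x * y = y * x) (f : P →* L)
    (y : groupHomology (Rep.trivial ℤ P ℤ) 2) :
    (groupHomology.map f (CategoryTheory.CategoryStruct.id (Rep.trivial ℤ P ℤ)) 2 :
        groupHomology (Rep.trivial ℤ P ℤ) 2 ⟶ groupHomology (Rep.trivial ℤ L ℤ) 2) y = 0 :=
  W8_zero P L f (fun c hc => cob_pullback hP.nf hfg f hL n hab c hc) y

end Pool.Agent.LibPC42
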